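import Mathlib
import Pool.Agent.Elton955.Final

open Filter Topology

namespace Pool.Agent.Results.MP_4833ba_an.EltonBounded

/-- `x` is a basic sequence: every vector of its closed linear span has a unique
norm-convergent expansion `∑ a_i x_i`. -/
def IsBasicSequence {X : Type*} [NormedAddCommGroup X] [NormedSpace ℝ X] (x : ℕ → X) : Prop :=
  ∀ y ∈ closure (Submodule.span ℝ (Set.range x) : Set X),
    ∃! a : ℕ → ℝ, Tendsto (fun n => ∑ i ∈ Finset.range n, a i • x i) atTop (𝓝 y)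

/-- The basis constant of `x` is at most `K`: every natural projection
`∑ a_i x_i ↦ ∑_{i < m} a_i x_i` onto an initial segment has norm at most `K`. -/
def BasisConstantLE {X : Type*} [NormedAddCommGroup X] [NormedSpace ℝ X] (x : ℕ → X)
    (K : ℝ) : Prop :=
  ∀ (a : ℕ → ℝ) (y : X),
    Tendsto (fun n => ∑ i ∈ Finset.range n, a i • x i) atTop (𝓝 y) →
      ∀ m : ℕ, ‖∑ i ∈ Finset.range m, a i • x i‖ ≤ K * ‖y‖

/-- `x` is normalized. -/
def Normalized {X : Type*} [NormedAddCommGroup X] (x : ℕ → X) : Prop := ∀ n, ‖x n‖ = 1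

/-- `x` is weakly null. -/
def WeaklyNull {X : Type*} [NormedAddCommGroup X] [NormedSpace ℝ X] (x : ℕ → X) : Prop :=
  ∀ f : X →L[ℝ] ℝ, Tendsto (fun n => f (x n)) atTop (𝓝 0)

/-- `x` is a normalized basic sequence that is `δ`-near unconditional with constant `K`. -/
def NearUnconditional {X : Type*} [NormedAddCommGroup X] [NormedSpace ℝ X] (δ K : ℝ)
    (x : ℕ → X) : Prop :=
  Normalized x ∧ IsBasicSequence x ∧ BasisConstantLE x K ∧
    ∀ (k : ℕ) (a : ℕ → ℝ), (∀ i ≤ k, |a i| ≤ 1) →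
      ∀ G : Finset ℕ, (∀ i ∈ G, i ≤ k ∧ δ ≤ |a i|) →
        ‖∑ n ∈ G, a n • x n‖ ≤ K * ‖∑ n ∈ Finset.range (k + 1), a n • x n‖

/-- `K ≥ 1` is admissible for `δ`: every normalized weakly null sequence in every real Banach
space has a subsequence that is `δ`-near unconditional with constant `K`. -/
def Admissible.{u} (δ K : ℝ) : Prop :=
  1 ≤ K ∧ ∀ (X : Type u) [NormedAddCommGroup X] [NormedSpace ℝ X] [CompleteSpace X]
    (x : ℕ → X), Normalized x → WeaklyNull x →
      ∃ φ : ℕ → ℕ, StrictMono φ ∧ NearUnconditional δ K (x ∘ φ)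

/-- The constant `K(δ)`: the infimum of all admissible `K`. -/
noncomputable def eltonK.{u} (δ : ℝ) : ℝ := sInf {K : ℝ | Admissible.{u} δ K}

/-- Affirmative answer to the question of Dilworth, Odell, Schlumprecht and Zsák: `K(δ)` is
bounded uniformly in `δ` (by `200`, and `200` itself is admissible for every `δ`). -/
theorem result.{u} : ∀ δ : ℝ, 0 < δ → δ ≤ 1 →
    Admissible.{u} δ 200 ∧ eltonK.{u} δ ≤ 200 := by
  intro δ hδ _
  have key : Admissible.{u} δ 200 := by
    refine ⟨by norm_num, ?_⟩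
    intro X _ _ _ x hx hw
    obtain ⟨φ, hφ, hb, hP⟩ := Elton955.Fin.main x hx hw δ hδ
    refine ⟨φ, hφ, fun n => hx _, ?_, ?_, ?_⟩
    · exact Elton955.Grun.grunblum (fun i => x (φ i))
        (fun n h => by have := hx (φ n); rw [h, norm_zero] at this; norm_num at this) 2 hb
    · intro a y hy m
      have h1 : Tendsto (fun n => 2 * ‖∑ i ∈ Finset.range n, a i • (x ∘ φ) i‖) atTop
          (𝓝 (2 * ‖y‖)) := (hy.norm).const_mul 2
      have h2 : ‖∑ i ∈ Finset.range m, a i • (x ∘ φ) i‖ ≤ 2 * ‖y‖ :=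
        ge_of_tendsto h1 (eventually_atTop.2 ⟨m, fun n hn => hb a m n hn⟩)
      have h3 : (0 : ℝ) ≤ ‖y‖ := norm_nonneg y
      linarith
    · intro k a ha G hG
      exact hP (k + 1) a G (fun i hi => ha i (Nat.lt_succ_iff.1 hi))
        (fun i hi => Finset.mem_range.2 (Nat.lt_succ_iff.2 (hG i hi).1))
        (fun i hi => (hG i hi).2)
  refine ⟨key, ?_⟩
  exact csInf_le ⟨1, fun K hK => hK.1⟩ key

end Pool.Agent.Results.MP_4833ba_an.EltonBounded
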